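import Mathlib
import Pool.Agent.D0H75.LF.Defs

/-!
# Algebraic Lefschetz inverses give a Lefschetz decomposition
-/

set_option autoImplicit false

namespace Pool.Agent.D0H38.LF

open Finset Pool.Agent.D0H75.LF

section

variable {K M : Type*} [Field K] [AddCommGroup M] [Module K M]

/-- `p` is the projector on the piece of degree `i`. -/
def IsPr (Mg : ℤ → Submodule K M) (D : ℤ → AddSubgroup (Module.End K M)) (i : ℤ)
    (p : Module.End K M) : Prop :=
  p ∈ D 0 ∧ (∀ x ∈ Mg i, p x = x) ∧ ∀ m : ℤ, m ≠ i → ∀ x ∈ Mg m, p x = 0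

theorem pow_mem' (D : ℤ → AddSubgroup (Module.End K M))
    (h1 : (1 : Module.End K M) ∈ D 0)
    (hm : ∀ i j x y, x ∈ D i → y ∈ D j → x * y ∈ D (i + j))
    (L : Module.End K M) (hL : L ∈ D 1) (k : ℕ) : L ^ k ∈ D k := by
  induction k with
  | zero => simpa using h1
  | succ k ih =>
    have := hm _ _ _ _ ih hL
    rw [← pow_succ] at this
    simpa using this

theorem pr_low (Mg : ℤ → Submodule K M)
    (d : ℕ) (hneg : ∀ j : ℤ, j < 0 → ∀ x ∈ Mg j, x = 0)
    (htop : ∀ j : ℤ, 2 * (d : ℤ) < j → ∀ x ∈ Mg j, x = 0)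
    (D : ℤ → AddSubgroup (Module.End K M))
    (h1 : (1 : Module.End K M) ∈ D 0)
    (hm : ∀ i j x y, x ∈ D i → y ∈ D j → x * y ∈ D (i + j))
    (hact : ∀ i j (f : Module.End K M) (x : M), f ∈ D i → x ∈ Mg j → f x ∈ Mg (j + 2 * i))
    (L : Module.End K M) (hL : L ∈ D 1)
    (hθ : ∀ i : ℕ, i < d → ∃ t ∈ D (-((d : ℤ) - i)),
      (∀ x ∈ Mg i, t ((L ^ (d - i)) x) = x) ∧
      (∀ y ∈ Mg (2 * (d : ℤ) - i), (L ^ (d - i)) (t y) = y)) :
    ∀ i : ℕ, i < d → (∃ p, IsPr Mg D (i : ℤ) p) ∧ ∃ p, IsPr Mg D (2 * (d : ℤ) - i) p := by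
  intro i
  induction i using Nat.strong_induction_on with
  | _ i ih =>
    intro hi
    have hA : ∀ j : ℕ, ∃ p, j < i → IsPr Mg D (j : ℤ) p := by
      intro j
      by_cases hj : j < i
      · obtain ⟨⟨p, hp⟩, _⟩ := ih j hj (hj.trans hi)
        exact ⟨p, fun _ => hp⟩
      · exact ⟨0, fun h => absurd h hj⟩
    have hB : ∀ j : ℕ, ∃ p, j < i → IsPr Mg D (2 * (d : ℤ) - j) p := by
      intro j
      by_cases hj : j < i
      · obtain ⟨_, ⟨p, hp⟩⟩ := ih j hj (hj.trans hi)
        exact ⟨p, fun _ => hp⟩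
      · exact ⟨0, fun h => absurd h hj⟩
    choose P hP using hA
    choose P' hP' using hB
    set A : Module.End K M := ∑ j ∈ range i, P j with hAdef
    set B : Module.End K M := ∑ j ∈ range i, P' j with hBdef
    have hAmem : A ∈ D 0 := AddSubgroup.sum_mem _ fun j hj => (hP j (mem_range.1 hj)).1
    have hBmem : B ∈ D 0 := AddSubgroup.sum_mem _ fun j hj => (hP' j (mem_range.1 hj)).1
    have hA1 : ∀ j : ℕ, j < i → ∀ x ∈ Mg (j : ℤ), A x = x := by
      intro j hj x hx
      rw [hAdef, LinearMap.sum_apply, Finset.sum_eq_single j]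
      · exact (hP j hj).2.1 x hx
      · intro b hb hbj
        exact (hP b (mem_range.1 hb)).2.2 j (by exact_mod_cast hbj.symm) x hx
      · intro h
        exact absurd (mem_range.2 hj) h
    have hA0 : ∀ m : ℤ, (i : ℤ) ≤ m → ∀ x ∈ Mg m, A x = 0 := by
      intro m hm' x hx
      rw [hAdef, LinearMap.sum_apply]
      refine Finset.sum_eq_zero fun b hb => ?_
      have hb' := mem_range.1 hb
      exact (hP b hb').2.2 m (by omega) x hx
    have hB1 : ∀ j : ℕ, j < i → ∀ x ∈ Mg (2 * (d : ℤ) - j), B x = x := by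
      intro j hj x hx
      rw [hBdef, LinearMap.sum_apply, Finset.sum_eq_single j]
      · exact (hP' j hj).2.1 x hx
      · intro b hb hbj
        exact (hP' b (mem_range.1 hb)).2.2 _ (by omega) x hx
      · intro h
        exact absurd (mem_range.2 hj) h
    have hB0 : ∀ m : ℤ, m ≤ 2 * (d : ℤ) - i → ∀ x ∈ Mg m, B x = 0 := by
      intro m hm' x hx
      rw [hBdef, LinearMap.sum_apply]
      refine Finset.sum_eq_zero fun b hb => ?_
      have hb' := mem_range.1 hb
      exact (hP' b hb').2.2 m (by omega) x hx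
    obtain ⟨t, ht, ht1, ht2⟩ := hθ i hi
    set T : Module.End K M := (1 - B) * L ^ (d - i) * (1 - A) with hT
    have hLp : L ^ (d - i) ∈ D ((d : ℤ) - i) := by
      have := pow_mem' D h1 hm L hL (d - i)
      rwa [Nat.cast_sub hi.le] at this
    have hTmem : T ∈ D ((d : ℤ) - i) := by
      have e1 := hm _ _ _ _ (AddSubgroup.sub_mem _ h1 hBmem) hLp
      have e2 := hm _ _ _ _ e1 (AddSubgroup.sub_mem _ h1 hAmem)
      simpa using e2
    have hTi : ∀ x ∈ Mg (i : ℤ), T x = (L ^ (d - i)) x := by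
      intro x hx
      have h0 : A x = 0 := hA0 _ le_rfl x hx
      have hy : (L ^ (d - i)) x ∈ Mg (2 * (d : ℤ) - i) := by
        have := hact _ _ _ _ hLp hx
        convert this using 2
        ring
      have h2 : B ((L ^ (d - i)) x) = 0 := hB0 _ le_rfl _ hy
      simp [hT, Module.End.mul_apply, LinearMap.sub_apply, h0, h2]
    have hT0 : ∀ m : ℤ, m ≠ i → ∀ x ∈ Mg m, T x = 0 := by
      intro m hmi x hx
      rcases lt_or_ge m 0 with hm0 | hm0
      · rw [hneg m hm0 x hx, map_zero]
      rcases lt_or_ge m (i : ℤ) with hlt | hge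
      · obtain ⟨j, rfl⟩ := Int.eq_ofNat_of_zero_le hm0
        have hj : j < i := by exact_mod_cast hlt
        have h0 : A x = x := hA1 j hj x hx
        simp [hT, Module.End.mul_apply, LinearMap.sub_apply, h0]
      · have h0 : A x = 0 := hA0 m hge x hx
        have hy : (L ^ (d - i)) x ∈ Mg (m + 2 * ((d : ℤ) - i)) := hact _ _ _ _ hLp hx
        have h2 : (1 - B) ((L ^ (d - i)) x) = 0 := by
          rcases lt_or_ge (2 * (d : ℤ)) (m + 2 * ((d : ℤ) - i)) with hc | hc
          · rw [htop _ hc _ hy, map_zero]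
          · obtain ⟨j, hj⟩ := Int.eq_ofNat_of_zero_le (a := 2 * (i : ℤ) - m) (by omega)
            have hy' : (L ^ (d - i)) x ∈ Mg (2 * (d : ℤ) - j) := by
              convert hy using 2
              omega
            have hjlt : j < i := by omega
            have := hB1 j hjlt _ hy'
            simp [LinearMap.sub_apply, this]
        have h3 : T x = (1 - B) ((L ^ (d - i)) (x - A x)) := by
          simp [hT, Module.End.mul_apply, LinearMap.sub_apply]
        rw [h3, h0, sub_zero, h2]
    refine ⟨⟨t * T, ?_, ?_, ?_⟩, ⟨T * t, ?_, ?_, ?_⟩⟩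
    · have := hm _ _ _ _ ht hTmem
      simpa using this
    · intro x hx
      rw [Module.End.mul_apply, hTi x hx, ht1 x hx]
    · intro m hmi x hx
      rw [Module.End.mul_apply, hT0 m hmi x hx, map_zero]
    · have := hm _ _ _ _ hTmem ht
      simpa using this
    · intro y hy
      have hty : t y ∈ Mg (i : ℤ) := by
        have := hact _ _ _ _ ht hy
        convert this using 2
        ring
      rw [Module.End.mul_apply, hTi _ hty, ht2 y hy]
    · intro m hmi y hy
      have hty := hact _ _ _ _ ht hy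
      rw [Module.End.mul_apply]
      exact hT0 _ (by intro h; apply hmi; linarith) _ hty

theorem pr_all (Mg : ℤ → Submodule K M)
    (d : ℕ) (hneg : ∀ j : ℤ, j < 0 → ∀ x ∈ Mg j, x = 0)
    (htop : ∀ j : ℤ, 2 * (d : ℤ) < j → ∀ x ∈ Mg j, x = 0)
    (D : ℤ → AddSubgroup (Module.End K M))
    (h1 : (1 : Module.End K M) ∈ D 0)
    (hm : ∀ i j x y, x ∈ D i → y ∈ D j → x * y ∈ D (i + j))
    (hact : ∀ i j (f : Module.End K M) (x : M), f ∈ D i → x ∈ Mg j → f x ∈ Mg (j + 2 * i))
    (L : Module.End K M) (hL : L ∈ D 1)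
    (hθ : ∀ i : ℕ, i < d → ∃ t ∈ D (-((d : ℤ) - i)),
      (∀ x ∈ Mg i, t ((L ^ (d - i)) x) = x) ∧
      (∀ y ∈ Mg (2 * (d : ℤ) - i), (L ^ (d - i)) (t y) = y)) :
    ∀ i : ℕ, ∃ p, IsPr Mg D (i : ℤ) p := by
  have H := pr_low Mg d hneg htop D h1 hm hact L hL hθ
  have hA : ∀ j : ℕ, ∃ p, j < d → IsPr Mg D (j : ℤ) p := by
    intro j
    by_cases hj : j < d
    · obtain ⟨⟨p, hp⟩, _⟩ := H j hj
      exact ⟨p, fun _ => hp⟩
    · exact ⟨0, fun h => absurd h hj⟩
  have hB : ∀ j : ℕ, ∃ p, j < d → IsPr Mg D (2 * (d : ℤ) - j) p := by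
    intro j
    by_cases hj : j < d
    · obtain ⟨_, ⟨p, hp⟩⟩ := H j hj
      exact ⟨p, fun _ => hp⟩
    · exact ⟨0, fun h => absurd h hj⟩
  choose P hP using hA
  choose P' hP' using hB
  intro i
  rcases lt_trichotomy i d with hi | hi | hi
  · exact (H i hi).1
  · subst hi
    refine ⟨1 - ∑ j ∈ range i, (P j + P' j), ?_, ?_, ?_⟩
    · refine AddSubgroup.sub_mem _ h1 (AddSubgroup.sum_mem _ fun j hj => ?_)
      exact AddSubgroup.add_mem _ (hP j (mem_range.1 hj)).1 (hP' j (mem_range.1 hj)).1
    · intro x hx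
      have : (∑ j ∈ range i, (P j + P' j)) x = 0 := by
        rw [LinearMap.sum_apply]
        refine Finset.sum_eq_zero fun b hb => ?_
        have hb' := mem_range.1 hb
        rw [LinearMap.add_apply, (hP b hb').2.2 i (by omega) x hx,
          (hP' b hb').2.2 i (by omega) x hx, add_zero]
      simp [LinearMap.sub_apply, this]
    · intro m hmi x hx
      rcases lt_or_ge m 0 with hm0 | hm0
      · rw [hneg m hm0 x hx, map_zero]
      rcases lt_or_ge (2 * (i : ℤ)) m with hm2 | hm2
      · rw [htop m hm2 x hx, map_zero]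
      have : (∑ j ∈ range i, (P j + P' j)) x = x := by
        rw [LinearMap.sum_apply]
        rcases lt_or_ge m (i : ℤ) with hlt | hge
        · obtain ⟨j, rfl⟩ := Int.eq_ofNat_of_zero_le hm0
          have hj : j < i := by exact_mod_cast hlt
          rw [Finset.sum_eq_single j]
          · rw [LinearMap.add_apply, (hP j hj).2.1 x hx,
              (hP' j hj).2.2 j (by omega) x hx, add_zero]
          · intro b hb hbj
            have hb' := mem_range.1 hb
            rw [LinearMap.add_apply, (hP b hb').2.2 _ (by omega) x hx,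
              (hP' b hb').2.2 _ (by omega) x hx, add_zero]
          · intro h
            exact absurd (mem_range.2 hj) h
        · obtain ⟨j, hj⟩ := Int.eq_ofNat_of_zero_le (a := 2 * (i : ℤ) - m) (by omega)
          have hjlt : j < i := by omega
          have hx' : x ∈ Mg (2 * (i : ℤ) - j) := by
            convert hx using 2
            omega
          rw [Finset.sum_eq_single j]
          · rw [LinearMap.add_apply, (hP j hjlt).2.2 _ (by omega) x hx',
              (hP' j hjlt).2.1 x hx', zero_add]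
          · intro b hb hbj
            have hb' := mem_range.1 hb
            rw [LinearMap.add_apply, (hP b hb').2.2 _ (by omega) x hx',
              (hP' b hb').2.2 _ (by omega) x hx', add_zero]
          · intro h
            exact absurd (mem_range.2 hjlt) h
      simp [LinearMap.sub_apply, this]
  · rcases le_or_gt i (2 * d) with h2 | h2
    · rcases eq_or_lt_of_le h2 with h3 | h3
      · have h0 : 2 * d - i < d := by omega
        have := (H (2 * d - i) h0).2
        have e : (2 * (d : ℤ) - ((2 * d - i : ℕ) : ℤ)) = i := by omega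
        rwa [e] at this
      · have h0 : 2 * d - i < d := by omega
        have := (H (2 * d - i) h0).2
        have e : (2 * (d : ℤ) - ((2 * d - i : ℕ) : ℤ)) = i := by omega
        rwa [e] at this
    · refine ⟨0, AddSubgroup.zero_mem _, ?_, ?_⟩
      · intro x hx
        rw [htop i (by exact_mod_cast h2) x hx, map_zero]
      · intro m _ x _
        simp

/-- **Lefschetz inverses in the ring of correspondences give the Künneth projectors and a
Lefschetz decomposition.** -/
theorem LFS (Mg : ℤ → Submodule K M)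
    (hext : ∀ f g : Module.End K M, (∀ i, ∀ x ∈ Mg i, f x = g x) → f = g)
    (d : ℕ) (hneg : ∀ j : ℤ, j < 0 → ∀ x ∈ Mg j, x = 0)
    (htop : ∀ j : ℤ, 2 * (d : ℤ) < j → ∀ x ∈ Mg j, x = 0)
    (D : ℤ → AddSubgroup (Module.End K M))
    (h1 : (1 : Module.End K M) ∈ D 0)
    (hm : ∀ i j x y, x ∈ D i → y ∈ D j → x * y ∈ D (i + j))
    (hact : ∀ i j (f : Module.End K M) (x : M), f ∈ D i → x ∈ Mg j → f x ∈ Mg (j + 2 * i))
    (L : Module.End K M) (hL : L ∈ D 1)
    (hθ : ∀ i : ℕ, i < d → ∃ t ∈ D (-((d : ℤ) - i)),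
      (∀ x ∈ Mg i, t ((L ^ (d - i)) x) = x) ∧
      (∀ y ∈ Mg (2 * (d : ℤ) - i), (L ^ (d - i)) (t y) = y)) :
    ∃ p, IsLef D L d p := by
  choose p hp using pr_all Mg d hneg htop D h1 hm hact L hL hθ
  have hLx : ∀ m : ℤ, ∀ x ∈ Mg m, L x ∈ Mg (m + 2) := by
    intro m x hx
    have := hact _ _ _ _ hL hx
    simpa using this
  refine ⟨p, ?_, ?_, ?_, ?_, ?_, ?_, ?_, ?_, ?_⟩
  · exact fun i => (hp i).1
  · intro i hi
    refine hext _ _ fun m x hx => ?_
    by_cases h : m = i
    · subst h
      rw [htop _ (by exact_mod_cast hi) x hx, map_zero, map_zero]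
    · rw [(hp i).2.2 m h x hx]
      simp
  · intro i
    refine hext _ _ fun m x hx => ?_
    rw [Module.End.mul_apply]
    by_cases h : m = i
    · subst h
      rw [(hp i).2.1 x hx, (hp i).2.1 x hx]
    · rw [(hp i).2.2 m h x hx, map_zero]
  · intro i j hij
    refine hext _ _ fun m x hx => ?_
    rw [Module.End.mul_apply]
    by_cases h : m = j
    · subst h
      rw [(hp j).2.1 x hx, (hp i).2.2 _ (by exact_mod_cast hij.symm) x hx]
      simp
    · rw [(hp j).2.2 m h x hx, map_zero]
      simp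
  · refine hext _ _ fun m x hx => ?_
    rcases lt_or_ge m 0 with hm0 | hm0
    · rw [hneg m hm0 x hx, map_zero, map_zero]
    rcases lt_or_ge (2 * (d : ℤ)) m with hm2 | hm2
    · rw [htop m hm2 x hx, map_zero, map_zero]
    obtain ⟨j, rfl⟩ := Int.eq_ofNat_of_zero_le hm0
    rw [LinearMap.sum_apply, Finset.sum_eq_single j]
    · rw [(hp j).2.1 x hx]
      simp
    · intro b _ hbj
      exact (hp b).2.2 _ (by exact_mod_cast hbj.symm) x hx
    · intro h
      exact absurd (mem_range.2 (by omega)) h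
  · intro i
    refine hext _ _ fun m x hx => ?_
    rw [Module.End.mul_apply, Module.End.mul_apply]
    by_cases h : m = i
    · subst h
      rw [(hp i).2.1 x hx, (hp (i + 2)).2.1 _ (by exact_mod_cast hLx _ x hx)]
    · rw [(hp i).2.2 m h x hx, map_zero,
        (hp (i + 2)).2.2 (m + 2) (by push_cast; omega) _ (hLx _ x hx)]
  · refine hext _ _ fun m x hx => ?_
    rw [Module.End.mul_apply, LinearMap.zero_apply]
    by_cases h : m + 2 = 0
    · rw [hneg m (by omega) x hx, map_zero, map_zero]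
    · exact (hp 0).2.2 (m + 2) (by exact_mod_cast h) _ (hLx _ x hx)
  · refine hext _ _ fun m x hx => ?_
    rw [Module.End.mul_apply, LinearMap.zero_apply]
    by_cases h : m + 2 = 1
    · rw [hneg m (by omega) x hx, map_zero, map_zero]
    · exact (hp 1).2.2 (m + 2) (by exact_mod_cast h) _ (hLx _ x hx)
  · intro i hi
    rcases eq_or_lt_of_le hi with h | h
    · subst h
      refine ⟨1, by simpa using h1, ?_, ?_⟩
      · simp
      · simp
    · obtain ⟨t, ht, ht1, ht2⟩ := hθ i h
      refine ⟨t, ht, ?_, ?_⟩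
      · refine hext _ _ fun m x hx => ?_
        rw [Module.End.mul_apply, Module.End.mul_apply]
        by_cases h' : m = i
        · subst h'
          rw [(hp i).2.1 x hx, ht1 x hx]
        · rw [(hp i).2.2 m h' x hx, map_zero, map_zero]
      · refine hext _ _ fun m x hx => ?_
        rw [Module.End.mul_apply, Module.End.mul_apply]
        have e : ((2 * d - i : ℕ) : ℤ) = 2 * (d : ℤ) - i := by omega
        by_cases h' : m = ((2 * d - i : ℕ) : ℤ)
        · subst h'
          rw [(hp _).2.1 x hx]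
          exact ht2 x (by rwa [e] at hx)
        · rw [(hp _).2.2 m h' x hx, map_zero, map_zero]

end

end Pool.Agent.D0H38.LF
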